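import Pool.Agent.N749.YOdd.Comb

set_option autoImplicit false

namespace Pool.Agent.N749.YOdd

open Finset

/-- exponent -/
def K (z : (ℕ × ℕ) × (ℕ × ℕ)) : ℕ :=
  2 * (z.1.1 + 1) * (z.1.2 + 1) + (z.1.1 + 1) + (z.1.2 + 1) * z.2.1 + (2 * z.1.1 + 1) * z.2.2

/-- term of the expanded series -/
noncomputable def h (q : ℂ) (z : (ℕ × ℕ) × (ℕ × ℕ)) : ℂ :=
  (-1) ^ (z.1.1 + 1 + z.2.1) * q ^ K z

theorem h_summable (q : ℂ) (hq : ‖q‖ < 1) : Summable (h q) := by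
  have hg : Summable (fun n : ℕ => ‖q‖ ^ n) := summable_geometric_of_lt_one (norm_nonneg _) hq
  have h2 : Summable (fun p : ℕ × ℕ => ‖q‖ ^ p.1 * ‖q‖ ^ p.2) :=
    hg.mul_of_nonneg hg (fun _ => by positivity) (fun _ => by positivity)
  have h4 : Summable (fun z : (ℕ × ℕ) × (ℕ × ℕ) => (‖q‖ ^ z.1.1 * ‖q‖ ^ z.1.2) * (‖q‖ ^ z.2.1 * ‖q‖ ^ z.2.2)) :=
    h2.mul_of_nonneg h2 (fun _ => by positivity) (fun _ => by positivity)
  refine Summable.of_norm_bounded h4 ?_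
  rintro ⟨⟨m, n⟩, ⟨t, s⟩⟩
  unfold h
  simp only [norm_mul, norm_pow, norm_neg, norm_one, one_pow, one_mul]
  rw [← pow_add, ← pow_add, ← pow_add]
  apply pow_le_pow_of_le_one (norm_nonneg _) hq.le
  unfold K
  simp only
  have e1 : t ≤ (n + 1) * t := Nat.le_mul_of_pos_left t (by omega)
  have e2 : s ≤ (2 * m + 1) * s := Nat.le_mul_of_pos_left s (by omega)
  have e3 : n + 1 ≤ 2 * (m + 1) * (n + 1) := Nat.le_mul_of_pos_left (n + 1) (by omega)
  omega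

theorem term_eq (q : ℂ) (hq : ‖q‖ < 1) (p : ℕ × ℕ) :
    (-q) ^ (2 * (p.1 + 1) * (p.2 + 1) + (p.1 + 1)) /
          ((1 + q ^ (p.2 + 1)) * (1 - q ^ (2 * p.1 + 1))) = ∑' r : ℕ × ℕ, h q (p, r) := by
  have hA : ‖-q ^ (p.2 + 1)‖ < 1 := by
    rw [norm_neg, norm_pow]
    exact pow_lt_one₀ (norm_nonneg _) hq (by omega)
  have hB : ‖q ^ (2 * p.1 + 1)‖ < 1 := by
    rw [norm_pow]
    exact pow_lt_one₀ (norm_nonneg _) hq (by omega)
  have sA : Summable (fun t : ℕ => (-q ^ (p.2 + 1)) ^ t) := summable_geometric_of_norm_lt_one hA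
  have sB : Summable (fun t : ℕ => (q ^ (2 * p.1 + 1)) ^ t) := summable_geometric_of_norm_lt_one hB
  have tA := tsum_geometric_of_norm_lt_one hA
  have tB := tsum_geometric_of_norm_lt_one hB
  have nA : Summable (fun t : ℕ => ‖(-q ^ (p.2 + 1)) ^ t‖) := by
    simp only [norm_pow (-q ^ (p.2 + 1))]
    exact summable_geometric_of_lt_one (norm_nonneg _) hA
  have nB : Summable (fun t : ℕ => ‖(q ^ (2 * p.1 + 1)) ^ t‖) := by
    simp only [norm_pow (q ^ (2 * p.1 + 1))]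
    exact summable_geometric_of_lt_one (norm_nonneg _) hB
  have hprod := tsum_mul_tsum_of_summable_norm nA nB
  have : ∀ r : ℕ × ℕ, h q (p, r) = (-q) ^ (2 * (p.1 + 1) * (p.2 + 1) + (p.1 + 1)) *
      ((-q ^ (p.2 + 1)) ^ r.1 * (q ^ (2 * p.1 + 1)) ^ r.2) := by
    rintro ⟨t, s⟩
    unfold h K
    simp only
    rw [neg_pow q, neg_pow (q ^ (p.2 + 1)), ← pow_mul, ← pow_mul, pow_add (-1 : ℂ) (2 * (p.1 + 1) * (p.2 + 1)),
      mul_assoc 2, pow_mul (-1 : ℂ) 2]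
    simp only [even_two, Even.neg_pow, one_pow, one_mul]
    rw [pow_add q _ ((2 * p.1 + 1) * s), pow_add q _ ((p.2 + 1) * t), pow_add (-1 : ℂ) _ t]
    ring
  rw [tsum_congr this, tsum_mul_left, ← hprod, tA, tB]
  have d1 : (1 : ℂ) + q ^ (p.2 + 1) ≠ 0 := by
    intro h0
    have : ‖-q ^ (p.2 + 1)‖ = 1 := by
      rw [neg_eq_of_add_eq_zero_left h0, norm_one]
    linarith
  have d2 : (1 : ℂ) - q ^ (2 * p.1 + 1) ≠ 0 := by
    intro h0
    have : ‖q ^ (2 * p.1 + 1)‖ = 1 := by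
      rw [← sub_eq_zero.mp h0, norm_one]
    linarith
  rw [sub_neg_eq_add, div_eq_mul_inv, mul_inv]

theorem Y_eq (q : ℂ) (hq : ‖q‖ < 1) :
    (∑' p : ℕ × ℕ, (-q) ^ (2 * (p.1 + 1) * (p.2 + 1) + (p.1 + 1)) /
          ((1 + q ^ (p.2 + 1)) * (1 - q ^ (2 * p.1 + 1)))) = ∑' z, h q z := by
  rw [tsum_congr (term_eq q hq)]
  exact ((h_summable q hq).tsum_prod).symm

/-- the coefficient of `q ^ k` -/
def box (k : ℕ) : Finset ((ℕ × ℕ) × (ℕ × ℕ)) :=
  (Finset.range (k + 1) ×ˢ Finset.range (k + 1)) ×ˢ (Finset.range (k + 1) ×ˢ Finset.range (k + 1))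

theorem mem_box {k : ℕ} {z : (ℕ × ℕ) × (ℕ × ℕ)} (hz : K z = k) : z ∈ box k := by
  obtain ⟨⟨m, n⟩, ⟨t, s⟩⟩ := z
  unfold K at hz
  simp only at hz
  have e1 : t ≤ (n + 1) * t := Nat.le_mul_of_pos_left t (by omega)
  have e2 : s ≤ (2 * m + 1) * s := Nat.le_mul_of_pos_left s (by omega)
  have e3 : n + 1 ≤ 2 * (m + 1) * (n + 1) := Nat.le_mul_of_pos_left (n + 1) (by omega)
  simp only [box, Finset.mem_product, Finset.mem_range]
  omega

theorem coeff_eq (k : ℕ) :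
    ∑ z ∈ (box k).filter (fun z => K z = k), ((-1 : ℤ)) ^ (z.1.1 + 1 + z.2.1) = SA (2 * k - 1) := by
  unfold SA
  refine Finset.sum_nbij' (fun z => ((2 * z.1.1 + 1, 2 * (z.1.2 + 1) + 1 + 2 * z.2.2), (2 * (z.1.2 + 1), z.2.1 + 1)))
    (fun p => ((p.1.1 / 2, p.2.1 / 2 - 1), (p.2.2 - 1, (p.1.2 - p.2.1) / 2))) ?_ ?_ ?_ ?_ ?_
  · rintro ⟨⟨m, n⟩, ⟨t, s⟩⟩ hz
    simp only [Finset.mem_filter, mem_Om] at hz ⊢
    have hz2 := hz.2
    unfold K at hz2
    simp only at hz2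
    refine ⟨⟨by omega, by omega, by omega, by omega, ?_⟩, by omega, by omega, by omega, by omega⟩
    have : 2 * k = (2 * m + 1) * (2 * (n + 1) + 1 + 2 * s) + 2 * (n + 1) * (t + 1) + 1 := by
      rw [← hz2]; ring
    omega
  · rintro ⟨⟨u, v⟩, ⟨w, b⟩⟩ hp
    simp only [Finset.mem_filter, mem_Om] at hp
    obtain ⟨⟨h1, h2, h3, h4, h5⟩, h6, h7, h8, h9⟩ := hp
    obtain ⟨m, rfl⟩ : ∃ m, u = 2 * m + 1 := ⟨u / 2, by omega⟩
    obtain ⟨n, rfl⟩ : ∃ n, w = 2 * (n + 1) := ⟨w / 2 - 1, by omega⟩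
    obtain ⟨t, rfl⟩ : ∃ t, b = t + 1 := ⟨b - 1, by omega⟩
    obtain ⟨s, rfl⟩ : ∃ s, v = 2 * (n + 1) + 1 + 2 * s := ⟨(v - 2 * (n + 1) - 1) / 2, by omega⟩
    simp only [Finset.mem_filter]
    have c1 : (2 * m + 1) / 2 = m := by omega
    have c2 : 2 * (n + 1) / 2 - 1 = n := by omega
    have c3 : t + 1 - 1 = t := by omega
    have c4 : (2 * (n + 1) + 1 + 2 * s - 2 * (n + 1)) / 2 = s := by omega
    rw [c1, c2, c3, c4]
    have hK : K ((m, n), (t, s)) = k := by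
      unfold K
      simp only
      have : (2 * m + 1) * (2 * (n + 1) + 1 + 2 * s) + 2 * (n + 1) * (t + 1) + 1 =
        2 * (2 * (m + 1) * (n + 1) + (m + 1) + (n + 1) * t + (2 * m + 1) * s) := by ring
      have hk : 1 ≤ 2 * k - 1 := by
        rw [← h5]
        have : 0 < (2 * m + 1) * (2 * (n + 1) + 1 + 2 * s) := by positivity
        omega
      omega
    exact ⟨mem_box hK, hK⟩
  · rintro ⟨⟨m, n⟩, ⟨t, s⟩⟩ hz
    simp only [Prod.mk.injEq]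
    refine ⟨⟨by omega, by omega⟩, by omega, by omega⟩
  · rintro ⟨⟨u, v⟩, ⟨w, b⟩⟩ hp
    simp only [Finset.mem_filter, mem_Om] at hp
    obtain ⟨⟨h1, h2, h3, h4, h5⟩, h6, h7, h8, h9⟩ := hp
    simp only [Prod.mk.injEq]
    refine ⟨⟨by omega, by omega⟩, by omega, by omega⟩
  · rintro ⟨⟨m, n⟩, ⟨t, s⟩⟩ hz
    simp only
    have h1 : chi ((2 * m + 1 : ℕ) : ℤ) = (-1) ^ m := by
      rcases Nat.even_or_odd m with hm | hm
      · rw [hm.neg_one_pow]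
        apply chi_one
        rw [Nat.even_iff] at hm; omega
      · rw [hm.neg_one_pow]
        apply chi_three
        rw [Nat.odd_iff] at hm; omega
    rw [h1, ← pow_add]
    congr 1
    omega

theorem coeff_zero (k : ℕ) (hk : k % 2 = 0) :
    ∑ z ∈ (box k).filter (fun z => K z = k), ((-1 : ℤ)) ^ (z.1.1 + 1 + z.2.1) = 0 := by
  rcases Nat.eq_zero_or_pos k with rfl | hpos
  · apply Finset.sum_eq_zero
    rintro ⟨⟨m, n⟩, ⟨t, s⟩⟩ hz
    simp only [Finset.mem_filter] at hz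
    have := hz.2
    unfold K at this
    simp only at this
    omega
  · rw [coeff_eq]
    apply SA_zero
    omega

/-- fibre sums vanish -/
theorem fibre (q : ℂ) (k : ℕ) :
    ∑' z : (K ⁻¹' {k} : Set ((ℕ × ℕ) × (ℕ × ℕ))), (h q z + h (-q) z) = 0 := by
  rw [tsum_subtype (K ⁻¹' {k}) (fun z => h q z + h (-q) z)]
  rw [tsum_eq_sum (s := box k)]
  · have e : ∀ z ∈ box k, (K ⁻¹' {k}).indicator (fun z => h q z + h (-q) z) z =
        if K z = k then (((-1 : ℤ) ^ (z.1.1 + 1 + z.2.1) : ℤ) : ℂ) * (q ^ k + (-q) ^ k) else 0 := by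
      intro z _
      unfold Set.indicator
      simp only [Set.mem_preimage, Set.mem_singleton_iff]
      by_cases hz : K z = k
      · rw [if_pos hz, if_pos hz]
        unfold h
        rw [hz]
        push_cast
        ring
      · rw [if_neg hz, if_neg hz]
    rw [Finset.sum_congr rfl e, ← Finset.sum_filter, ← Finset.sum_mul, ← Int.cast_sum]
    rcases Nat.even_or_odd k with hk | hk
    · rw [Nat.even_iff] at hk
      rw [coeff_zero k hk]; simp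
    · rw [hk.neg_pow]; ring
  · intro z hz
    unfold Set.indicator
    simp only [Set.mem_preimage, Set.mem_singleton_iff]
    rw [if_neg]
    intro h0
    exact hz (mem_box h0)

theorem sum_zero (q : ℂ) (hq : ‖q‖ < 1) : ∑' z, h q z + ∑' z, h (-q) z = 0 := by
  have hq' : ‖-q‖ < 1 := by rw [norm_neg]; exact hq
  have h1 := (h_summable q hq).hasSum.add (h_summable (-q) hq').hasSum
  have h2 := h1.tsum_fiberwise K
  have h3 : (fun c : ℕ => ∑' z : (K ⁻¹' {c} : Set ((ℕ × ℕ) × (ℕ × ℕ))), (h q z + h (-q) z)) = fun _ => 0 := by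
    funext c
    exact fibre q c
  rw [h3] at h2
  exact h2.unique hasSum_zero

theorem Y_odd (q : ℂ) (hq : ‖q‖ < 1) :
      (∑' p : ℕ × ℕ, (-(-q)) ^ (2 * (p.1 + 1) * (p.2 + 1) + (p.1 + 1)) /
          ((1 + (-q) ^ (p.2 + 1)) * (1 - (-q) ^ (2 * p.1 + 1))))
        = -(∑' p : ℕ × ℕ, (-q) ^ (2 * (p.1 + 1) * (p.2 + 1) + (p.1 + 1)) /
          ((1 + q ^ (p.2 + 1)) * (1 - q ^ (2 * p.1 + 1)))) := by
  have hq' : ‖-q‖ < 1 := by rw [norm_neg]; exact hq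
  rw [Y_eq q hq, Y_eq (-q) hq']
  have := sum_zero q hq
  linear_combination this

end Pool.Agent.N749.YOdd
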