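import Mathlib

set_option autoImplicit false

/-!
Liouville-type identity: for `M ≡ 3 (mod 4)` the signed count of representations `M = u v + w b` with
`u, v` odd, `w` even, `w < v` vanishes.
-/

namespace Pool.Agent.N749.YOdd

/-- the nontrivial character mod 4 -/
def chi (n : ℤ) : ℤ := if n % 4 = 1 then 1 else if n % 4 = 3 then -1 else 0

/-- representations `M = x.1.1 * x.1.2 + x.2.1 * x.2.2` in positive integers -/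
def Om (M : ℕ) : Finset ((ℕ × ℕ) × (ℕ × ℕ)) :=
  ((Finset.Icc 1 M ×ˢ Finset.Icc 1 M) ×ˢ (Finset.Icc 1 M ×ˢ Finset.Icc 1 M)).filter
    (fun p => p.1.1 * p.1.2 + p.2.1 * p.2.2 = M)

theorem mem_Om {M : ℕ} {a b c d : ℕ} :
    ((a, b), (c, d)) ∈ Om M ↔ 1 ≤ a ∧ 1 ≤ b ∧ 1 ≤ c ∧ 1 ≤ d ∧ a * b + c * d = M := by
  unfold Om
  simp only [Finset.mem_filter, Finset.mem_product, Finset.mem_Icc]
  constructor
  · rintro ⟨⟨⟨⟨h1, h2⟩, h3, h4⟩, ⟨h5, h6⟩, h7, h8⟩, h9⟩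
    exact ⟨h1, h3, h5, h7, h9⟩
  · rintro ⟨h1, h2, h3, h4, h5⟩
    have e1 : a ≤ a * b := Nat.le_mul_of_pos_right a (by omega)
    have e2 : b ≤ a * b := Nat.le_mul_of_pos_left b (by omega)
    have e3 : c ≤ c * d := Nat.le_mul_of_pos_right c (by omega)
    have e4 : d ≤ c * d := Nat.le_mul_of_pos_left d (by omega)
    refine ⟨⟨⟨⟨h1, by omega⟩, h2, by omega⟩, ⟨h3, by omega⟩, h4, by omega⟩, h5⟩

theorem chi_one {n : ℤ} (h : n % 4 = 1) : chi n = 1 := by simp [chi, h]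
theorem chi_three {n : ℤ} (h : n % 4 = 3) : chi n = -1 := by simp [chi, h]

/-- product of odd numbers is 3 mod 4 : characters opposite -/
theorem chi_swap {u v r : ℕ} {M : ℕ} (hM : M % 4 = 3) (hu : u % 2 = 1) (hv : v % 2 = 1)
    (hr : r % 4 = 0) (h : u * v + r = M) : chi (v : ℤ) = - chi (u : ℤ) := by
  have h1 : (u * v) % 4 = 3 := by omega
  have h2 : ((u % 4) * (v % 4)) % 4 = 3 := by rw [← Nat.mul_mod]; exact h1
  have hu4 : u % 4 = 1 ∨ u % 4 = 3 := by omega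
  have hv4 : v % 4 = 1 ∨ v % 4 = 3 := by omega
  rcases hu4 with hu4 | hu4 <;> rcases hv4 with hv4 | hv4
  · rw [hu4, hv4] at h2; omega
  · rw [chi_three (n := (v : ℤ)) (by omega), chi_one (n := (u : ℤ)) (by omega)]
  · rw [chi_one (n := (v : ℤ)) (by omega), chi_three (n := (u : ℤ)) (by omega)]; rfl
  · rw [hu4, hv4] at h2; omega

/-- `A`: w < v -/
def SA (M : ℕ) : ℤ := ∑ p ∈ (Om M).filter (fun p => p.1.1 % 2 = 1 ∧ p.1.2 % 2 = 1 ∧ p.2.1 % 2 = 0 ∧ p.2.1 < p.1.2),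
  chi (p.1.1 : ℤ) * (-1) ^ p.2.2

/-- `B`: v < w -/
def SB (M : ℕ) : ℤ := ∑ p ∈ (Om M).filter (fun p => p.1.1 % 2 = 1 ∧ p.1.2 % 2 = 1 ∧ p.2.1 % 2 = 0 ∧ p.1.2 < p.2.1),
  chi (p.1.1 : ℤ) * (-1) ^ p.2.2

/-- `T`: all -/
def ST (M : ℕ) : ℤ := ∑ p ∈ (Om M).filter (fun p => p.1.1 % 2 = 1 ∧ p.1.2 % 2 = 1 ∧ p.2.1 % 2 = 0),
  chi (p.1.1 : ℤ) * (-1) ^ p.2.2

theorem ST_eq (M : ℕ) : ST M = SA M + SB M := by
  unfold ST SA SB
  rw [← Finset.sum_union]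
  · apply Finset.sum_congr _ (fun _ _ => rfl)
    ext ⟨⟨a, b⟩, ⟨c, d⟩⟩
    simp only [Finset.mem_filter, Finset.mem_union]
    constructor
    · rintro ⟨h, h1, h2, h3⟩
      rcases lt_or_gt_of_ne (show c ≠ b by rintro rfl; omega) with h4 | h4
      · exact Or.inl ⟨h, h1, h2, h3, h4⟩
      · exact Or.inr ⟨h, h1, h2, h3, h4⟩
    · rintro (⟨h, h1, h2, h3, h4⟩ | ⟨h, h1, h2, h3, h4⟩)
      · exact ⟨h, h1, h2, h3⟩
      · exact ⟨h, h1, h2, h3⟩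
  · rw [Finset.disjoint_left]
    rintro ⟨⟨a, b⟩, ⟨c, d⟩⟩ h1 h2
    simp only [Finset.mem_filter] at h1 h2
    omega

/-- Xi sums -/
def Xi (M : ℕ) : Finset ((ℕ × ℕ) × (ℕ × ℕ)) :=
  (Om M).filter (fun p => p.1.2 % 2 = 1 ∧ p.2.2 % 2 = 1 ∧ (p.1.1 + p.2.1) % 2 = 1)

def g (p : (ℕ × ℕ) × (ℕ × ℕ)) : ℤ := chi ((p.1.1 : ℤ) - (p.2.1 : ℤ)) * (-1) ^ p.2.1

theorem chi_neg (n : ℤ) : chi (-n) = - chi n := by
  have h : n % 4 = 0 ∨ n % 4 = 1 ∨ n % 4 = 2 ∨ n % 4 = 3 := by omega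
  rcases h with h | h | h | h
  · have h' : (-n) % 4 = 0 := by omega
    simp [chi, h, h']
  · have h' : (-n) % 4 = 3 := by omega
    simp [chi, h, h']
  · have h' : (-n) % 4 = 2 := by omega
    simp [chi, h, h']
  · have h' : (-n) % 4 = 1 := by omega
    simp [chi, h, h']

theorem g_swap (x v z y : ℕ) (h : (x + z) % 2 = 1) : g ((z, y), (x, v)) = g ((x, v), (z, y)) := by
  unfold g
  simp only
  have h1 : ((z : ℤ) - (x : ℤ)) = -((x : ℤ) - (z : ℤ)) := by ring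
  rw [h1, chi_neg]
  have h2 : ((-1 : ℤ)) ^ x = - (-1) ^ z := by
    rcases Nat.even_or_odd x with hx | hx
    · have hz : Odd z := by
        rw [Nat.even_iff] at hx; rw [Nat.odd_iff]; omega
      rw [hx.neg_one_pow, hz.neg_one_pow]; rfl
    · have hz : Even z := by
        rw [Nat.odd_iff] at hx; rw [Nat.even_iff]; omega
      rw [hx.neg_one_pow, hz.neg_one_pow]
  rw [h2]; ring

theorem SB_eq (M : ℕ) : SB M = ∑ p ∈ (Xi M).filter (fun p => p.2.1 < p.1.1), g p := by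
  unfold SB
  refine Finset.sum_nbij' (fun p => ((p.1.1 + p.2.2, p.1.2), (p.2.2, p.2.1 - p.1.2)))
    (fun p => ((p.1.1 - p.2.1, p.1.2), (p.2.2 + p.1.2, p.2.1))) ?_ ?_ ?_ ?_ ?_
  · rintro ⟨⟨u, v⟩, ⟨w, b⟩⟩ hp
    simp only [Finset.mem_filter, mem_Om, Xi] at hp ⊢
    obtain ⟨⟨h1, h2, h3, h4, h5⟩, h6, h7, h8, h9⟩ := hp
    refine ⟨⟨⟨by omega, h2, h4, by omega, ?_⟩, h7, by omega, by omega⟩, by omega⟩
    obtain ⟨k, rfl⟩ := Nat.exists_eq_add_of_lt h9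
    have : v + k + 1 - v = k + 1 := by omega
    rw [this, ← h5]; ring
  · rintro ⟨⟨x, v⟩, ⟨z, y⟩⟩ hp
    simp only [Finset.mem_filter, mem_Om, Xi] at hp ⊢
    obtain ⟨⟨⟨h1, h2, h3, h4, h5⟩, h6, h7, h8⟩, h9⟩ := hp
    refine ⟨⟨by omega, h2, by omega, h3, ?_⟩, by omega, h6, by omega, by omega⟩
    obtain ⟨k, rfl⟩ := Nat.exists_eq_add_of_lt h9
    have : z + k + 1 - z = k + 1 := by omega
    rw [this, ← h5]; ring
  · rintro ⟨⟨u, v⟩, ⟨w, b⟩⟩ hp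
    simp only [Finset.mem_filter, mem_Om] at hp
    obtain ⟨⟨h1, h2, h3, h4, h5⟩, h6, h7, h8, h9⟩ := hp
    simp only [Prod.mk.injEq]
    refine ⟨⟨by omega, trivial⟩, by omega, trivial⟩
  · rintro ⟨⟨x, v⟩, ⟨z, y⟩⟩ hp
    simp only [Finset.mem_filter, mem_Om, Xi] at hp
    obtain ⟨⟨⟨h1, h2, h3, h4, h5⟩, h6, h7, h8⟩, h9⟩ := hp
    simp only [Prod.mk.injEq]
    refine ⟨⟨by omega, trivial⟩, trivial, by omega⟩
  · rintro ⟨⟨u, v⟩, ⟨w, b⟩⟩ hp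
    unfold g
    simp only
    congr 2
    push_cast; ring

/-- swap bijection on subsets of `Xi` -/
theorem Xi_swap (M : ℕ) (P : (ℕ × ℕ) × (ℕ × ℕ) → Prop) [DecidablePred P] :
    ∑ p ∈ (Xi M).filter P, g p = ∑ p ∈ (Xi M).filter (fun p => P (p.2, p.1)), g p := by
  refine Finset.sum_nbij' (fun p => (p.2, p.1)) (fun p => (p.2, p.1)) ?_ ?_ ?_ ?_ ?_
  · rintro ⟨⟨x, v⟩, ⟨z, y⟩⟩ hp
    simp only [Finset.mem_filter, mem_Om, Xi] at hp ⊢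
    obtain ⟨⟨⟨h1, h2, h3, h4, h5⟩, h6, h7, h8⟩, h9⟩ := hp
    exact ⟨⟨⟨h3, h4, h1, h2, by omega⟩, h7, h6, by omega⟩, h9⟩
  · rintro ⟨⟨x, v⟩, ⟨z, y⟩⟩ hp
    simp only [Finset.mem_filter, mem_Om, Xi] at hp ⊢
    obtain ⟨⟨⟨h1, h2, h3, h4, h5⟩, h6, h7, h8⟩, h9⟩ := hp
    exact ⟨⟨⟨h3, h4, h1, h2, by omega⟩, h7, h6, by omega⟩, h9⟩
  · rintro ⟨⟨x, v⟩, ⟨z, y⟩⟩ hp; rfl
  · rintro ⟨⟨x, v⟩, ⟨z, y⟩⟩ hp; rfl
  · rintro ⟨⟨x, v⟩, ⟨z, y⟩⟩ hp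
    simp only [Finset.mem_filter, mem_Om, Xi] at hp
    obtain ⟨⟨⟨h1, h2, h3, h4, h5⟩, h6, h7, h8⟩, h9⟩ := hp
    exact (g_swap x v z y h8).symm

theorem two_SB (M : ℕ) : 2 * SB M = ∑ p ∈ Xi M, g p := by
  have h1 := SB_eq M
  have h2 := Xi_swap M (fun p => p.2.1 < p.1.1)
  simp only at h2
  have h3 : ∑ p ∈ Xi M, g p = ∑ p ∈ (Xi M).filter (fun p => p.2.1 < p.1.1), g p
      + ∑ p ∈ (Xi M).filter (fun p => ¬ (p.2.1 < p.1.1)), g p :=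
    (Finset.sum_filter_add_sum_filter_not _ _ _).symm
  have h4 : (Xi M).filter (fun p => ¬ (p.2.1 < p.1.1)) = (Xi M).filter (fun p => p.1.1 < p.2.1) := by
    apply Finset.filter_congr
    rintro ⟨⟨x, v⟩, ⟨z, y⟩⟩ hp
    simp only [Finset.mem_filter, mem_Om, Xi] at hp
    simp only
    omega
  rw [h3, h4, ← h2, ← h1]; ring

theorem Xi_eq_two (M : ℕ) : ∑ p ∈ Xi M, g p = 2 * ∑ p ∈ (Xi M).filter (fun p => p.1.1 % 2 = 1), g p := by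
  have h2 := Xi_swap M (fun p => p.1.1 % 2 = 1)
  simp only at h2
  have h3 : ∑ p ∈ Xi M, g p = ∑ p ∈ (Xi M).filter (fun p => p.1.1 % 2 = 1), g p
      + ∑ p ∈ (Xi M).filter (fun p => ¬ (p.1.1 % 2 = 1)), g p :=
    (Finset.sum_filter_add_sum_filter_not _ _ _).symm
  have h4 : (Xi M).filter (fun p => ¬ (p.1.1 % 2 = 1)) = (Xi M).filter (fun p => p.2.1 % 2 = 1) := by
    apply Finset.filter_congr
    rintro ⟨⟨x, v⟩, ⟨z, y⟩⟩ hp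
    simp only [Finset.mem_filter, mem_Om, Xi] at hp
    simp only
    omega
  rw [h3, h4, ← h2]; ring

/-- cancellation under `(u,v) ↔ (v,u)` -/
theorem cancel (M : ℕ) (P : ℕ × ℕ → Prop) [DecidablePred P] (hM : M % 4 = 3)
    (hP : ∀ w b : ℕ, P (w, b) → (w * b) % 4 = 0) (s : ℕ × ℕ → ℤ) :
    ∑ p ∈ (Om M).filter (fun p => p.1.1 % 2 = 1 ∧ p.1.2 % 2 = 1 ∧ P p.2), chi (p.1.1 : ℤ) * s p.2 = 0 := by
  have h : ∑ p ∈ (Om M).filter (fun p => p.1.1 % 2 = 1 ∧ p.1.2 % 2 = 1 ∧ P p.2), chi (p.1.1 : ℤ) * s p.2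
      = ∑ p ∈ (Om M).filter (fun p => p.1.1 % 2 = 1 ∧ p.1.2 % 2 = 1 ∧ P p.2), -(chi (p.1.1 : ℤ) * s p.2) := by
    refine Finset.sum_nbij' (fun p => ((p.1.2, p.1.1), p.2)) (fun p => ((p.1.2, p.1.1), p.2)) ?_ ?_ ?_ ?_ ?_
    · rintro ⟨⟨u, v⟩, ⟨w, b⟩⟩ hp
      simp only [Finset.mem_filter, mem_Om] at hp ⊢
      obtain ⟨⟨h1, h2, h3, h4, h5⟩, h6, h7, h8⟩ := hp
      exact ⟨⟨h2, h1, h3, h4, by rw [Nat.mul_comm v u]; exact h5⟩, h7, h6, h8⟩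
    · rintro ⟨⟨u, v⟩, ⟨w, b⟩⟩ hp
      simp only [Finset.mem_filter, mem_Om] at hp ⊢
      obtain ⟨⟨h1, h2, h3, h4, h5⟩, h6, h7, h8⟩ := hp
      exact ⟨⟨h2, h1, h3, h4, by rw [Nat.mul_comm v u]; exact h5⟩, h7, h6, h8⟩
    · rintro ⟨⟨u, v⟩, ⟨w, b⟩⟩ hp; rfl
    · rintro ⟨⟨u, v⟩, ⟨w, b⟩⟩ hp; rfl
    · rintro ⟨⟨u, v⟩, ⟨w, b⟩⟩ hp
      simp only [Finset.mem_filter, mem_Om] at hp
      obtain ⟨⟨h1, h2, h3, h4, h5⟩, h6, h7, h8⟩ := hp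
      simp only
      rw [chi_swap hM h6 h7 (hP w b h8) h5]; ring
  rw [Finset.sum_neg_distrib] at h
  omega

theorem ST_eq_T1 (M : ℕ) (hM : M % 4 = 3) :
    ST M = ∑ p ∈ (Om M).filter (fun p => p.1.1 % 2 = 1 ∧ p.1.2 % 2 = 1 ∧ (p.2.1 % 4 = 2 ∧ p.2.2 % 2 = 1)),
      -chi (p.1.1 : ℤ) := by
  have h0 := cancel M (fun q => q.1 % 2 = 0 ∧ ¬ (q.1 % 4 = 2 ∧ q.2 % 2 = 1)) hM (by
    rintro w b ⟨hw, h⟩
    by_cases hb : b % 2 = 1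
    · have hw4 : w % 4 = 0 := by
        by_contra hne
        exact h ⟨by omega, hb⟩
      rw [Nat.mul_mod, hw4]; simp
    · have hw2 : w % 4 = 0 ∨ w % 4 = 2 := by omega
      have hb2 : b % 4 = 0 ∨ b % 4 = 2 := by omega
      rw [Nat.mul_mod]
      rcases hw2 with hw2 | hw2 <;> rcases hb2 with hb2 | hb2 <;> rw [hw2, hb2]) (fun q => (-1) ^ q.2)
  unfold ST
  rw [← Finset.sum_filter_add_sum_filter_not _ (fun p => p.2.1 % 4 = 2 ∧ p.2.2 % 2 = 1)]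
  rw [Finset.filter_filter, Finset.filter_filter]
  have e2 : (Om M).filter (fun a => (a.1.1 % 2 = 1 ∧ a.1.2 % 2 = 1 ∧ a.2.1 % 2 = 0) ∧ ¬(a.2.1 % 4 = 2 ∧ a.2.2 % 2 = 1))
      = (Om M).filter (fun p => p.1.1 % 2 = 1 ∧ p.1.2 % 2 = 1 ∧ (p.2.1 % 2 = 0 ∧ ¬ (p.2.1 % 4 = 2 ∧ p.2.2 % 2 = 1))) := by
    apply Finset.filter_congr
    intro p _
    tauto
  rw [e2, h0, add_zero]
  apply Finset.sum_congr
  · apply Finset.filter_congr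
    intro p _
    constructor
    · rintro ⟨⟨h1, h2, h3⟩, h4, h5⟩; exact ⟨h1, h2, h4, h5⟩
    · rintro ⟨h1, h2, h4, h5⟩; exact ⟨⟨h1, h2, by omega⟩, h4, h5⟩
  · intro p hp
    simp only [Finset.mem_filter] at hp
    obtain ⟨_, _, _, _, h5⟩ := hp
    have : Odd p.2.2 := by rw [Nat.odd_iff]; exact h5
    rw [this.neg_one_pow]; ring

theorem O1_eq_T1 (M : ℕ) (hM : M % 4 = 3) :
    ∑ p ∈ (Xi M).filter (fun p => p.1.1 % 2 = 1), g p =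
    ∑ p ∈ (Om M).filter (fun p => p.1.1 % 2 = 1 ∧ p.1.2 % 2 = 1 ∧ (p.2.1 % 4 = 2 ∧ p.2.2 % 2 = 1)),
      -chi (p.1.1 : ℤ) := by
  have h0 := cancel M (fun q => q.1 % 4 = 0 ∧ q.2 % 2 = 1) hM (by
    rintro w b ⟨hw, h⟩
    rw [Nat.mul_mod, hw]; simp) (fun q => 1)
  rw [← Finset.sum_filter_add_sum_filter_not _ (fun p => p.2.1 % 4 = 2)]
  have e1 : ((Xi M).filter (fun p => p.1.1 % 2 = 1)).filter (fun p => p.2.1 % 4 = 2) =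
      (Om M).filter (fun p => p.1.1 % 2 = 1 ∧ p.1.2 % 2 = 1 ∧ (p.2.1 % 4 = 2 ∧ p.2.2 % 2 = 1)) := by
    unfold Xi
    rw [Finset.filter_filter, Finset.filter_filter]
    apply Finset.filter_congr
    intro p _
    constructor
    · rintro ⟨h1, h2, h3⟩; exact ⟨by omega, h1.1, by omega, h1.2.1⟩
    · rintro ⟨h1, h2, h3, h4⟩; exact ⟨⟨h2, h4, by omega⟩, by omega, by omega⟩
  have e2 : ((Xi M).filter (fun p => p.1.1 % 2 = 1)).filter (fun p => ¬ (p.2.1 % 4 = 2)) =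
      (Om M).filter (fun p => p.1.1 % 2 = 1 ∧ p.1.2 % 2 = 1 ∧ (p.2.1 % 4 = 0 ∧ p.2.2 % 2 = 1)) := by
    unfold Xi
    rw [Finset.filter_filter, Finset.filter_filter]
    apply Finset.filter_congr
    intro p _
    constructor
    · rintro ⟨h1, h2, h3⟩; exact ⟨by omega, h1.1, by omega, h1.2.1⟩
    · rintro ⟨h1, h2, h3, h4⟩; exact ⟨⟨h2, h4, by omega⟩, by omega, by omega⟩
  rw [e1, e2]
  have e3 : ∑ p ∈ (Om M).filter (fun p => p.1.1 % 2 = 1 ∧ p.1.2 % 2 = 1 ∧ (p.2.1 % 4 = 0 ∧ p.2.2 % 2 = 1)), g p = 0 := by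
    rw [← h0]
    apply Finset.sum_congr rfl
    intro p hp
    simp only [Finset.mem_filter] at hp
    obtain ⟨_, h2, h3, h4, h5⟩ := hp
    unfold g
    have hev : Even p.2.1 := by rw [Nat.even_iff]; omega
    rw [hev.neg_one_pow]
    congr 1
    unfold chi
    have : ((p.1.1 : ℤ) - (p.2.1 : ℤ)) % 4 = (p.1.1 : ℤ) % 4 := by omega
    rw [this]
  rw [e3, add_zero]
  apply Finset.sum_congr rfl
  intro p hp
  simp only [Finset.mem_filter] at hp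
  obtain ⟨_, h2, h3, h4, h5⟩ := hp
  unfold g
  have hev : Even p.2.1 := by rw [Nat.even_iff]; omega
  rw [hev.neg_one_pow, mul_one]
  have hx : p.1.1 % 4 = 1 ∨ p.1.1 % 4 = 3 := by omega
  rcases hx with hx | hx
  · rw [chi_three (n := (p.1.1 : ℤ) - (p.2.1 : ℤ)) (by omega), chi_one (n := (p.1.1 : ℤ)) (by omega)]
  · rw [chi_one (n := (p.1.1 : ℤ) - (p.2.1 : ℤ)) (by omega), chi_three (n := (p.1.1 : ℤ)) (by omega)]; rfl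

/-- the Liouville-type identity -/
theorem SA_zero (M : ℕ) (hM : M % 4 = 3) : SA M = 0 := by
  have h1 := ST_eq M
  have h2 := two_SB M
  have h3 := Xi_eq_two M
  have h4 := O1_eq_T1 M hM
  have h5 := ST_eq_T1 M hM
  rw [h3, h4, ← h5] at h2
  omega

end Pool.Agent.N749.YOdd
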